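import Pool.Agent.W275.UB.Den

/-!
# Transfer to the generic point by an ultraproduct
-/

set_option autoImplicit false

namespace Pool.Agent.W177.UB

open MvPolynomial Filter
open Pool.Agent.W275.UB

/-- the degree of an algebraic extension of `E` inside `Γ` is bounded by the degrees over `Q`, if
`E` is relatively algebraically closed in `Q` -/
theorem finrank_le (E Q Γ : Type) [Field E] [Field Q] [Field Γ] [CharZero E] [Algebra E Q]
    [Algebra Q Γ] [Algebra E Γ] [IsScalarTower E Q Γ] (D : ℕ)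
    (hrel : ∀ t : Q, IsAlgebraic E t → t ∈ Set.range (algebraMap E Q))
    (L : IntermediateField E Γ) [FiniteDimensional E L]
    (hdeg : ∀ y ∈ L, ∃ q : Polynomial Q, q ≠ 0 ∧ q.natDegree ≤ D ∧ Polynomial.aeval y q = 0) :
    Module.finrank E L ≤ D := by
  obtain ⟨y, hy⟩ := Field.exists_primitive_element E L
  have h1 : (minpoly E y).natDegree = Module.finrank E L :=
    (Field.primitive_element_iff_minpoly_natDegree_eq E y).mp hy
  have h2 : minpoly E (y : Γ) = minpoly E y :=
    minpoly.algebraMap_eq (algebraMap L Γ).injective y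
  obtain ⟨q, hq0, hqD, hq⟩ := hdeg (y : Γ) y.2
  have hint : IsIntegral E (y : Γ) := (Algebra.IsIntegral.isIntegral (R := E) y).algebraMap
  have hintQ : IsIntegral Q (y : Γ) := hint.tower_top
  have h3 : minpoly Q (y:Γ) ∣ (minpoly E (y:Γ)).map (algebraMap E Q) :=
    minpoly.dvd_map_of_isScalarTower E Q (y:Γ)
  have h4 : minpoly Q (y:Γ) ∣ q := minpoly.dvd _ _ hq
  have h5 : (minpoly Q (y:Γ)).natDegree ≤ D := (Polynomial.natDegree_le_of_dvd h4 hq0).trans hqD
  have h6 : minpoly Q (y : Γ) ∈ Polynomial.lifts (algebraMap (integralClosure E Q) Q) :=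
    integralClosure.mem_lifts_of_monic_of_dvd_map Q (minpoly.monic hint) (minpoly.monic hintQ) h3
  have h7 : minpoly Q (y : Γ) ∈ Polynomial.lifts (algebraMap E Q) := by
    rw [Polynomial.lifts_iff_coeff_lifts] at h6 ⊢
    intro n
    obtain ⟨c, hc⟩ := h6 n
    apply hrel
    rw [← hc]
    exact (show IsIntegral E (c : Q) from c.2).isAlgebraic
  obtain ⟨μ, hμ⟩ := (Polynomial.mem_lifts _).mp h7
  have h8 : Polynomial.aeval (y:Γ) μ = 0 := by
    have := minpoly.aeval Q (y:Γ)
    rwa [← hμ, Polynomial.aeval_map_algebraMap] at this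
  have h9 : μ ≠ 0 := by
    rintro rfl
    rw [Polynomial.map_zero] at hμ
    exact minpoly.ne_zero hintQ hμ.symm
  have h10 : (minpoly E (y:Γ)).natDegree ≤ μ.natDegree :=
    Polynomial.natDegree_le_of_dvd (minpoly.dvd _ _ h8) h9
  have h11 : μ.natDegree = (minpoly Q (y:Γ)).natDegree := by
    rw [← hμ, Polynomial.natDegree_map]
  rw [← h1, ← h2]
  omega

abbrev Qb : Type := AlgebraicClosure ℚ

/-- abstract ultrapowers of `ℚ` and of its algebraic closure -/
lemma exists_ultra (X : Type) (U : Ultrafilter X) :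
    ∃ (Q Γ : Type) (_ : Field Q) (_ : Field Γ) (gq : (X → ℚ) →+* Q) (gg : (X → Qb) →+* Γ)
      (j : Q →+* Γ), Function.Surjective gq ∧ Function.Surjective gg ∧
      (∀ f, gq f = 0 ↔ ∀ᶠ v in (U : Filter X), f v = 0) ∧
      (∀ f, gg f = 0 ↔ ∀ᶠ v in (U : Filter X), f v = 0) ∧
      ∀ f : X → ℚ, j (gq f) = gg (fun v => algebraMap ℚ Qb (f v)) := by
  have s1 : Function.Surjective (Germ.coeRingHom (U : Filter X) : (X → ℚ) →+* Germ (U : Filter X) ℚ) := by
    intro y
    induction y using Germ.inductionOn with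
    | _ f => exact ⟨f, rfl⟩
  have s2 : Function.Surjective (Germ.coeRingHom (U : Filter X) : (X → Qb) →+* Germ (U : Filter X) Qb) := by
    intro y
    induction y using Germ.inductionOn with
    | _ f => exact ⟨f, rfl⟩
  have z1 : ∀ f : X → ℚ, (Germ.coeRingHom (U : Filter X) : (X → ℚ) →+* Germ (U : Filter X) ℚ) f = 0 ↔
      ∀ᶠ v in (U : Filter X), f v = 0 := by
    intro f
    exact Germ.coe_eq (f := f) (g := fun _ => (0 : ℚ))
  have z2 : ∀ f : X → Qb, (Germ.coeRingHom (U : Filter X) : (X → Qb) →+* Germ (U : Filter X) Qb) f = 0 ↔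
      ∀ᶠ v in (U : Filter X), f v = 0 := by
    intro f
    exact Germ.coe_eq (f := f) (g := fun _ => (0 : Qb))
  set gq : (X → ℚ) →+* Germ (U : Filter X) ℚ := Germ.coeRingHom (U : Filter X) with hgq
  set gg : (X → Qb) →+* Germ (U : Filter X) Qb := Germ.coeRingHom (U : Filter X) with hgg
  set cc : (X → ℚ) →+* (X → Qb) :=
    RingHom.pi fun v => (algebraMap ℚ Qb).comp (Pi.evalRingHom (fun _ => ℚ) v) with hcc
  have hker : RingHom.ker gq ≤ RingHom.ker (gg.comp cc) := by
    intro f hf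
    rw [RingHom.mem_ker] at hf ⊢
    rw [RingHom.comp_apply, z2]
    filter_upwards [(z1 f).mp hf] with v hv
    change algebraMap ℚ Qb (f v) = 0
    rw [hv, map_zero]
  refine ⟨Germ (U : Filter X) ℚ, Germ (U : Filter X) Qb, inferInstance, inferInstance, gq, gg,
    RingHom.liftOfSurjective gq s1 ⟨gg.comp cc, hker⟩, s1, s2, z1, z2, fun f => ?_⟩
  exact RingHom.liftOfRightInverse_comp_apply _ _ _ ⟨gg.comp cc, hker⟩ f

/-- the transfer, given the ultrafilter and the points in the algebraic closure of `ℚ` -/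
theorem gen_aux (ι : Type) [Fintype ι] (U : Ultrafilter (ι → ℤ))
    (hdens : ∀ c : MvPolynomial ι ℤ, c ≠ 0 → ∀ᶠ v in (U : Filter (ι → ℤ)), eval v c ≠ 0)
    (hurel : ∀ (T : (ι → ℤ) → ℚ) (G : Polynomial (MvPolynomial ι ℤ)), G ≠ 0 →
      (∀ᶠ v in (U : Filter (ι → ℤ)),
        (G.map ((Int.castRingHom ℚ).comp (eval v))).eval (T v) = 0) →
      ∃ a b : MvPolynomial ι ℤ, b ≠ 0 ∧
        ∀ᶠ v in (U : Filter (ι → ℤ)), ((eval v b : ℤ) : ℚ) * T v = ((eval v a : ℤ) : ℚ))
    (n D : ℕ) (G : Set (MvPolynomial (Fin n) (MvPolynomial ι ℤ)))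
    (h : MvPolynomial (Fin n) (MvPolynomial ι ℤ))
    (H1 : ∀ (Ω : Type) [Field Ω] [IsAlgClosed Ω] [Algebra (EE ι) Ω] (x : Fin n → Ω),
      (∀ g ∈ G, eval₂ (gn ι Ω) x g = 0) → ∀ j, IsAlgebraic (EE ι) (x j))
    (xv : Fin n → (ι → ℤ) → Qb) (F : (ι → ℤ) → IntermediateField ℚ Qb)
    (hF : ∀ᶠ v in (U : Filter (ι → ℤ)), FiniteDimensional ℚ (F v) ∧
      Module.finrank ℚ (F v) ≤ D ∧ (∀ k, xv k v ∈ F v) ∧
      (∀ g ∈ G, eval₂ ((Int.castRingHom Qb).comp (eval v)) (fun k => xv k v) g = 0) ∧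
      eval₂ ((Int.castRingHom Qb).comp (eval v)) (fun k => xv k v) h ≠ 0) :
    ∃ (L : Type) (_ : Field L) (_ : Algebra (EE ι) L) (x : Fin n → L),
      FiniteDimensional (EE ι) L ∧ Module.finrank (EE ι) L ≤ D ∧
      (∀ g ∈ G, eval₂ (gn ι L) x g = 0) ∧ eval₂ (gn ι L) x h ≠ 0 := by
  obtain ⟨Q, Γ, fQ, fΓ, gq, gg, j, s1, s2, z1, z2, hj⟩ := exists_ultra (ι → ℤ) U
  set cQ : MvPolynomial ι ℤ →+* ((ι → ℤ) → ℚ) :=
    RingHom.pi fun v => (Int.castRingHom ℚ).comp (eval v) with hcQ
  set cB : MvPolynomial ι ℤ →+* ((ι → ℤ) → Qb) :=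
    RingHom.pi fun v => (Int.castRingHom Qb).comp (eval v) with hcB
  have hinj : Function.Injective (gq.comp cQ) := by
    rw [injective_iff_map_eq_zero]
    intro c hc
    by_contra hne
    rw [RingHom.comp_apply, z1] at hc
    obtain ⟨v, hv1, hv2⟩ := (hc.and (hdens c hne)).exists
    apply hv2
    have : ((eval v c : ℤ) : ℚ) = 0 := hv1
    exact_mod_cast this
  set jE : EE ι →+* Q := IsFractionRing.lift hinj with hjE
  have hjE' : ∀ c, jE (algebraMap (MvPolynomial ι ℤ) (EE ι) c) = gq (cQ c) := fun c =>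
    IsFractionRing.lift_algebraMap hinj c
  let aEQ : Algebra (EE ι) Q := jE.toAlgebra
  let aQG : Algebra Q Γ := j.toAlgebra
  let aEG : Algebra (EE ι) Γ := (j.comp jE).toAlgebra
  have tow : IsScalarTower (EE ι) Q Γ := IsScalarTower.of_algebraMap_eq (fun _ => rfl)
  let aMQ : Algebra (MvPolynomial ι ℤ) Q := (gq.comp cQ).toAlgebra
  have tow2 : IsScalarTower (MvPolynomial ι ℤ) (EE ι) Q :=
    IsScalarTower.of_algebraMap_eq (fun c => (hjE' c).symm)
  have hgn : ∀ c, gn ι Γ c = gg (cB c) := by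
    intro c
    change j (jE (algebraMap (MvPolynomial ι ℤ) (EE ι) c)) = gg (cB c)
    rw [hjE', hj]
    congr 1
  have hgn' : gn ι Γ = gg.comp cB := RingHom.ext hgn
  set xs : Fin n → Γ := fun k => gg (xv k) with hxs
  have hev : ∀ g : MvPolynomial (Fin n) (MvPolynomial ι ℤ),
      eval₂ (gn ι Γ) xs g = gg (eval₂ cB xv g) := by
    intro g
    rw [hgn', eval₂_comp_left gg cB xv g]
    rfl
  have hevv : ∀ (g : MvPolynomial (Fin n) (MvPolynomial ι ℤ)) (v : ι → ℤ),
      (eval₂ cB xv g) v =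
        eval₂ ((Int.castRingHom Qb).comp (eval v)) (fun k => xv k v) g := by
    intro g v
    have := eval₂_comp_left (Pi.evalRingHom (fun _ : ι → ℤ => Qb) v) cB xv g
    exact this
  have hG0 : ∀ g ∈ G, eval₂ (gn ι Γ) xs g = 0 := by
    intro g hg
    rw [hev, z2]
    filter_upwards [hF] with v hv
    rw [hevv]
    exact hv.2.2.2.1 g hg
  have hh0 : eval₂ (gn ι Γ) xs h ≠ 0 := by
    rw [hev, Ne, z2]
    intro h0
    obtain ⟨v, hv1, hv2⟩ := (h0.and hF).exists
    rw [hevv] at hv1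
    exact hv2.2.2.2.2 hv1
  have halg : ∀ k, IsAlgebraic (EE ι) (xs k) := by
    intro k
    have := H1 (AlgebraicClosure Γ) (fun k => algebraMap Γ (AlgebraicClosure Γ) (xs k)) ?_ k
    · exact (isAlgebraic_algebraMap_iff (algebraMap Γ (AlgebraicClosure Γ)).injective).mp this
    · intro g hg
      have e1 : gn ι (AlgebraicClosure Γ) = (algebraMap Γ (AlgebraicClosure Γ)).comp (gn ι Γ) := by
        unfold gn
        rw [← RingHom.comp_assoc, ← IsScalarTower.algebraMap_eq (EE ι) Γ (AlgebraicClosure Γ)]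
      have e2 := eval₂_comp_left (algebraMap Γ (AlgebraicClosure Γ)) (gn ι Γ) xs g
      rw [hG0 g hg, map_zero, ← e1] at e2
      exact e2.symm
  have hrel : ∀ t : Q, IsAlgebraic (EE ι) t → t ∈ Set.range (algebraMap (EE ι) Q) := by
    intro t ht
    have ht' : IsAlgebraic (MvPolynomial ι ℤ) t :=
      (IsFractionRing.isAlgebraic_iff (MvPolynomial ι ℤ) (EE ι) Q).mpr ht
    obtain ⟨P, hP0, hP⟩ := ht'
    obtain ⟨T, rfl⟩ := s1 t
    have e1 : gq (Polynomial.eval₂ cQ T P) = 0 := by
      rw [Polynomial.hom_eval₂]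
      exact hP
    rw [z1] at e1
    obtain ⟨a, b, hb, hab⟩ := hurel T P hP0 (by
      filter_upwards [e1] with v hv
      rw [Polynomial.eval_map]
      have := Polynomial.hom_eval₂ P cQ (Pi.evalRingHom (fun _ : ι → ℤ => ℚ) v) T
      rw [← hv]
      exact this.symm)
    have e2 : gq (cQ b) * gq T = gq (cQ a) := by
      rw [← sub_eq_zero, ← map_mul, ← map_sub, z1]
      filter_upwards [hab] with v hv
      change ((eval v b : ℤ) : ℚ) * T v - ((eval v a : ℤ) : ℚ) = 0
      rw [hv, sub_self]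
    have e3 : gq (cQ b) ≠ 0 := by
      intro h0
      apply hb
      apply hinj
      rw [map_zero]
      exact h0
    refine ⟨algebraMap _ (EE ι) a / algebraMap _ (EE ι) b, ?_⟩
    change jE _ = _
    rw [map_div₀, hjE', hjE', ← e2]
    field_simp
  set L : IntermediateField (EE ι) Γ := IntermediateField.adjoin (EE ι) (Set.range xs) with hL
  have hfin : FiniteDimensional (EE ι) L := by
    apply IntermediateField.finiteDimensional_adjoin
    rintro _ ⟨k, rfl⟩
    exact (halg k).isIntegral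
  have hmemb : ∀ y ∈ L, ∃ f : (ι → ℤ) → Qb, gg f = y ∧ ∀ᶠ v in (U : Filter (ι → ℤ)), f v ∈ F v := by
    intro y hy
    induction hy using IntermediateField.adjoin_induction with
    | mem x hx =>
      obtain ⟨k, rfl⟩ := hx
      exact ⟨xv k, rfl, hF.mono fun v hv => hv.2.2.1 k⟩
    | algebraMap x =>
      obtain ⟨t, ht⟩ := s1 (jE x)
      refine ⟨fun v => algebraMap ℚ Qb (t v), ?_, Filter.Eventually.of_forall fun v =>
        (F v).algebraMap_mem _⟩
      rw [← hj, ht]
      rfl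
    | add x y hx hy h1 h2 =>
      obtain ⟨f, rfl, hf⟩ := h1
      obtain ⟨g, rfl, hg⟩ := h2
      refine ⟨f + g, map_add _ _ _, ?_⟩
      filter_upwards [hf, hg] with v h1 h2
      exact add_mem h1 h2
    | inv x hx h1 =>
      obtain ⟨f, rfl, hf⟩ := h1
      refine ⟨fun v => (f v)⁻¹, ?_, ?_⟩
      · by_cases h0 : gg f = 0
        · rw [h0, inv_zero, z2]
          filter_upwards [(z2 f).mp h0] with v hv
          rw [hv, inv_zero]
        · apply eq_inv_of_mul_eq_one_left
          rw [← map_mul, ← sub_eq_zero, ← map_one gg, ← map_sub, z2]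
          have h3 : ∀ᶠ v in (U : Filter (ι → ℤ)), f v ≠ 0 := by
            rw [z2] at h0
            exact Ultrafilter.eventually_not.mpr h0
          filter_upwards [h3] with v hv
          simp [hv]
      · filter_upwards [hf] with v hv
        exact inv_mem hv
    | mul x y hx hy h1 h2 =>
      obtain ⟨f, rfl, hf⟩ := h1
      obtain ⟨g, rfl, hg⟩ := h2
      refine ⟨f * g, map_mul _ _ _, ?_⟩
      filter_upwards [hf, hg] with v h1 h2
      exact mul_mem h1 h2
  have hdeg : ∀ y ∈ L, ∃ q : Polynomial Q, q ≠ 0 ∧ q.natDegree ≤ D ∧ Polynomial.aeval y q = 0 := by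
    intro y hy
    obtain ⟨f, rfl, hf⟩ := hmemb y hy
    have hmin : ∀ᶠ v in (U : Filter (ι → ℤ)), (minpoly ℚ (f v)).Monic ∧
        (minpoly ℚ (f v)).natDegree ≤ D := by
      filter_upwards [hf, hF] with v h1 h2
      have := h2.1
      have i1 : IsIntegral ℚ (⟨f v, h1⟩ : F v) := Algebra.IsIntegral.isIntegral _
      have i2 : minpoly ℚ (f v) = minpoly ℚ (⟨f v, h1⟩ : F v) :=
        minpoly.algebraMap_eq (algebraMap (F v) Qb).injective (⟨f v, h1⟩ : F v)
      rw [i2]
      exact ⟨minpoly.monic i1, (minpoly.natDegree_le _).trans h2.2.1⟩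
    set q : Polynomial Q := ∑ i ∈ Finset.range (D + 1),
      Polynomial.C (gq fun v => (minpoly ℚ (f v)).coeff i) * Polynomial.X ^ i with hq
    have hcoef : ∀ i ≤ D, q.coeff i = gq fun v => (minpoly ℚ (f v)).coeff i := by
      intro i hi
      rw [hq, Polynomial.finsetSum_coeff]
      simp only [Polynomial.coeff_C_mul, Polynomial.coeff_X_pow]
      rw [Finset.sum_eq_single i]
      · simp
      · intro b _ hb
        rw [if_neg (Ne.symm hb), mul_zero]
      · intro hi'
        exact absurd (Finset.mem_range.mpr (by omega)) hi'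
    refine ⟨q, ?_, ?_, ?_⟩
    · intro h0
      have h1 : ∀ i ∈ Finset.range (D + 1), ∀ᶠ v in (U : Filter (ι → ℤ)),
          (minpoly ℚ (f v)).coeff i = 0 := by
        intro i hi
        have := hcoef i (by rw [Finset.mem_range] at hi; omega)
        rw [h0, Polynomial.coeff_zero] at this
        exact (z1 _).mp this.symm
      have h2 := (Filter.eventually_all_finset (Finset.range (D + 1))).mpr h1
      obtain ⟨v, hv1, hv2, hv3⟩ := (h2.and hmin).exists
      have := hv1 (minpoly ℚ (f v)).natDegree (Finset.mem_range.mpr (by omega))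
      have h5 : (minpoly ℚ (f v)).coeff (minpoly ℚ (f v)).natDegree = 1 := hv2
      rw [h5] at this
      exact one_ne_zero this
    · rw [hq]
      apply Polynomial.natDegree_sum_le_of_forall_le
      intro i hi
      refine (Polynomial.natDegree_C_mul_X_pow_le _ _).trans ?_
      rw [Finset.mem_range] at hi
      omega
    · rw [hq, map_sum]
      have h1 : ∀ i ∈ Finset.range (D + 1), Polynomial.aeval (gg f)
          (Polynomial.C (gq fun v => (minpoly ℚ (f v)).coeff i) * Polynomial.X ^ i) =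
          gg (fun v => algebraMap ℚ Qb ((minpoly ℚ (f v)).coeff i) * f v ^ i) := by
        intro i _
        rw [map_mul, Polynomial.aeval_C, map_pow, Polynomial.aeval_X]
        change j _ * _ = _
        rw [hj, ← map_pow, ← map_mul]
        rfl
      rw [Finset.sum_congr rfl h1, ← map_sum, z2]
      filter_upwards [hmin] with v hv
      rw [Finset.sum_apply]
      have h6 : Polynomial.aeval (f v) (minpoly ℚ (f v)) = 0 := minpoly.aeval _ _
      rw [Polynomial.aeval_eq_sum_range' (n := D + 1) (by omega)] at h6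
      rw [← h6]
      refine Finset.sum_congr rfl fun i _ => ?_
      rw [Algebra.smul_def]
  have hle : Module.finrank (EE ι) L ≤ D := finrank_le (EE ι) Q Γ D hrel L hdeg
  set xL : Fin n → L := fun k => ⟨xs k, IntermediateField.subset_adjoin _ _ ⟨k, rfl⟩⟩ with hxL
  have hL' : ∀ g : MvPolynomial (Fin n) (MvPolynomial ι ℤ),
      algebraMap L Γ (eval₂ (gn ι L) xL g) = eval₂ (gn ι Γ) xs g := by
    intro g
    have e1 : gn ι Γ = (algebraMap L Γ).comp (gn ι L) := by
      unfold gn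
      rw [← RingHom.comp_assoc, ← IsScalarTower.algebraMap_eq (EE ι) L Γ]
    rw [e1]
    exact eval₂_comp_left (algebraMap L Γ) (gn ι L) xL g
  refine ⟨L, inferInstance, inferInstance, xL, hfin, hle, ?_, ?_⟩
  · intro g hg
    apply (algebraMap L Γ).injective
    rw [hL', map_zero]
    exact hG0 g hg
  · intro h0
    apply hh0
    rw [← hL', h0, map_zero]

theorem main : S_dens → S_exu → S_urel → S_gen := by
  classical
  intro hdens hexu hurel ι _ n D G h H1 H2
  obtain ⟨U, hU, hBad⟩ := hexu ι _ H2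
  have hd : ∀ c : MvPolynomial ι ℤ, c ≠ 0 → ∀ᶠ v in (U : Filter (ι → ℤ)), eval v c ≠ 0 := by
    intro c hc
    have h1 : ∀ ε : ℝ, 0 < ε → UD ε {v : ι → ℤ | eval v c = 0} := by
      intro ε hε
      obtain ⟨V, H₀, hV⟩ := hdens ι c hc 2 Nat.prime_two ε hε
      refine ⟨H₀, fun H hH => le_trans ?_ (hV H hH)⟩
      have hfin : ({v | v ∈ {v : ι → ℤ | ((2:ℕ) : ℤ) ^ (V + 1) ∣ eval v c} ∧
          ∀ i, |v i| ≤ (H : ℤ)} : Set (ι → ℤ)).Finite := by
        refine Set.Finite.subset (Set.finite_Icc (fun _ => -(H:ℤ)) (fun _ => (H:ℤ))) ?_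
        rintro v ⟨-, hv⟩
        exact ⟨fun i => (abs_le.mp (hv i)).1, fun i => (abs_le.mp (hv i)).2⟩
      have := Set.ncard_le_ncard (s := {v | v ∈ {v : ι → ℤ | eval v c = 0} ∧
          ∀ i, |v i| ≤ (H : ℤ)}) ?_ hfin
      · exact_mod_cast this
      · rintro v ⟨hv1, hv2⟩
        have h2 : ((2:ℕ):ℤ) ^ (V + 1) ∣ eval v c := by
          rw [show eval v c = 0 from hv1]
          exact dvd_zero _
        exact ⟨h2, hv2⟩
    exact hU _ h1
  have hex : ∀ v : ι → ℤ, ∃ (F : IntermediateField ℚ Qb) (y : Fin n → Qb),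
      v ∈ {v : ι → ℤ |
        ∃ (K : Type) (_ : Field K) (_ : NumberField K) (x : Fin n → K), Module.finrank ℚ K ≤ D ∧
        (∀ g ∈ G, eval₂ ((Int.castRingHom K).comp (eval v)) x g = 0) ∧
        eval₂ ((Int.castRingHom K).comp (eval v)) x h ≠ 0} →
      FiniteDimensional ℚ F ∧ Module.finrank ℚ F ≤ D ∧ (∀ k, y k ∈ F) ∧
      (∀ g ∈ G, eval₂ ((Int.castRingHom Qb).comp (eval v)) y g = 0) ∧
      eval₂ ((Int.castRingHom Qb).comp (eval v)) y h ≠ 0 := by
    intro v
    by_cases hv : v ∈ {v : ι → ℤ |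
        ∃ (K : Type) (_ : Field K) (_ : NumberField K) (x : Fin n → K), Module.finrank ℚ K ≤ D ∧
        (∀ g ∈ G, eval₂ ((Int.castRingHom K).comp (eval v)) x g = 0) ∧
        eval₂ ((Int.castRingHom K).comp (eval v)) x h ≠ 0}
    · obtain ⟨K, iF, iN, x, hD, hG, hh⟩ := hv
      let σ : K →ₐ[ℚ] Qb := IsAlgClosed.lift
      have e1 : (Int.castRingHom Qb).comp (eval v) =
          (σ : K →+* Qb).comp ((Int.castRingHom K).comp (eval v)) := by
        rw [← RingHom.comp_assoc]
        congr 1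
        exact RingHom.ext_int _ _
      have e2 : ∀ g, eval₂ ((Int.castRingHom Qb).comp (eval v)) (fun k => σ (x k)) g =
          σ (eval₂ ((Int.castRingHom K).comp (eval v)) x g) := by
        intro g
        rw [e1]
        exact (eval₂_comp_left (σ : K →+* Qb) ((Int.castRingHom K).comp (eval v)) x g).symm
      refine ⟨σ.fieldRange, fun k => σ (x k), fun _ => ⟨?_, ?_, fun k => ⟨x k, rfl⟩, ?_, ?_⟩⟩
      · exact LinearEquiv.finiteDimensional
          (AlgEquiv.ofInjectiveField σ).toLinearEquiv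
      · refine le_trans (le_of_eq ?_) hD
        exact (AlgEquiv.ofInjectiveField σ).toLinearEquiv.finrank_eq.symm
      · intro g hg
        rw [e2, hG g hg, map_zero]
      · rw [e2]
        intro h0
        exact hh ((map_eq_zero σ).mp h0)
    · exact ⟨⊥, fun _ => 0, fun h => absurd h hv⟩
  choose F y hFy using hex
  refine gen_aux ι U hd (hurel ι U hU) n D G h H1 (fun k v => y v k) F ?_
  filter_upwards [hBad] with v hv
  exact hFy v hv

end Pool.Agent.W177.UB
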