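import Pool.Agent.W606.UB.Stm

/-!
Project UB (MP_aea6d5_co): the vertices of the join and monotonicity (P_real).
-/

set_option autoImplicit false

namespace KN

namespace UB

namespace RealW177

open scoped Classical

noncomputable section

theorem zip_chain {α : Type} (Φ : α → α → Prop) : ∀ (t : List α) (x y : α),
    (x :: t ++ [y]).IsChain Φ → ∀ e ∈ (x :: t).zip (t ++ [y]), Φ e.1 e.2 := by
  intro t
  induction t with
  | nil =>
    intro x y h e he
    simp only [List.nil_append, List.zip_cons_cons, List.zip_nil_right, List.mem_cons,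
      List.not_mem_nil, or_false] at he
    subst he
    simpa using h
  | cons z t ih =>
    intro x y h e he
    simp only [List.cons_append, List.zip_cons_cons, List.mem_cons] at he
    simp only [List.cons_append, List.isChain_cons_cons] at h
    rcases he with he | he
    · subst he
      exact h.1
    · exact ih z y (by simpa using h.2) e he

theorem path_head? (w : List Dir) : (path w).head? = some (pos w) := by
  cases w <;> rfl

theorem path_getLast? (w : List Dir) : (path w).getLast? = some 0 := by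
  rw [List.getLast?_eq_some_getLast (path_ne_nil w), path_getLast]

theorem path_chain (M : Z3 → Prop) : ∀ w : List Dir, (∀ p ∈ path w, M p) →
    (path w).IsChain (fun a b => (∃ d, b = a + vec d) ∧ M a ∧ M b) := by
  intro w
  induction w with
  | nil => intro _; simp [path]
  | cons d w ih =>
    intro h
    have hw : ∀ p ∈ path w, M p := fun p hp => h p (by rw [path]; exact List.mem_cons_of_mem _ hp)
    rw [path, List.isChain_cons]
    refine ⟨?_, ih hw⟩
    intro y hy
    rw [path_head?] at hy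
    have hy' : y = pos w := by
      simpa using hy.symm
    subst hy'
    refine ⟨⟨neg d, ?_⟩, h _ (by rw [path]; exact List.mem_cons_self), hw _ (pos_mem_path w)⟩
    rw [vec_neg]
    abel

theorem lerp_coord (a b : Z3) (u : ℝ) : lerp (emb a) (emb b) u =
    ((1 - u) * a.1 + u * b.1, (1 - u) * a.2.1 + u * b.2.1, (1 - u) * a.2.2 + u * b.2.2) := by
  simp [lerp, emb]

theorem emb0 : (0 : V) = emb 0 := by
  simp only [emb, Prod.fst_zero, Prod.snd_zero, Int.cast_zero]
  rfl

theorem edge_lem (a : Z3) (d : Dir) (u : ℝ) (h0 : 0 ≤ u) (h1 : u < 1) :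
    (∃ c : Z3, (c = a ∨ c = a + vec d) ∧ c.2.1 = ⌊(lerp (emb a) (emb (a + vec d)) u).2.1⌋ ∧
      c.2.2 = ⌊(lerp (emb a) (emb (a + vec d)) u).2.2⌋ ∧
      (lerp (emb a) (emb (a + vec d)) u).1 ≤ c.1) ∧
    (∃ c : Z3, (c = a ∨ c = a + vec d) ∧ c.2.1 = ⌊(lerp (emb a) (emb (a + vec d)) u).2.1⌋ ∧
      c.2.2 = ⌊(lerp (emb a) (emb (a + vec d)) u).2.2⌋ ∧
      (c.1 : ℝ) ≤ (lerp (emb a) (emb (a + vec d)) u).1) := by
  obtain ⟨x, y, z⟩ := a
  rw [lerp_coord]
  have f1 : ∀ m : ℤ, m = ⌊(1 - u) * (m : ℝ) + u * ((m + 0 : ℤ) : ℝ)⌋ := by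
    intro m
    symm
    rw [Int.floor_eq_iff]
    push_cast
    constructor <;> linarith
  have f2 : ∀ m : ℤ, m = ⌊(1 - u) * (m : ℝ) + u * ((m + 1 : ℤ) : ℝ)⌋ := by
    intro m
    symm
    rw [Int.floor_eq_iff]
    push_cast
    constructor <;> linarith
  have f3 : u ≠ 0 → ∀ m : ℤ, m + -1 = ⌊(1 - u) * (m : ℝ) + u * ((m + -1 : ℤ) : ℝ)⌋ := by
    intro hu m
    have hu' : 0 < u := lt_of_le_of_ne h0 (Ne.symm hu)
    symm
    rw [Int.floor_eq_iff]
    push_cast
    constructor <;> linarith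
  have f4 : u = 0 → ∀ m : ℤ, m = ⌊(1 - u) * (m : ℝ) + u * ((m + -1 : ℤ) : ℝ)⌋ := by
    intro hu m
    subst hu
    simp
  have g1 : ∀ m : ℤ, (1 - u) * (m : ℝ) + u * ((m + 0 : ℤ) : ℝ) = m := by
    intro m
    push_cast
    ring
  have g0 : ∀ m : ℤ, m + 0 = ⌊(1 - u) * (m : ℝ) + u * ((m + 0 : ℤ) : ℝ)⌋ := by
    intro m
    rw [← f1 m, add_zero]
  cases d
  · refine ⟨⟨(x, y, z) + vec .xp, Or.inr rfl, g0 y, g0 z, ?_⟩, ⟨(x, y, z), Or.inl rfl, f1 y, f1 z,
      ?_⟩⟩
    · change (1 - u) * (x : ℝ) + u * ((x + 1 : ℤ) : ℝ) ≤ ((x + 1 : ℤ) : ℝ)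
      push_cast
      linarith
    · change (x : ℝ) ≤ (1 - u) * (x : ℝ) + u * ((x + 1 : ℤ) : ℝ)
      push_cast
      linarith
  · refine ⟨⟨(x, y, z), Or.inl rfl, f1 y, f1 z, ?_⟩, ⟨(x, y, z) + vec .xm, Or.inr rfl, g0 y, g0 z,
      ?_⟩⟩
    · change (1 - u) * (x : ℝ) + u * ((x + -1 : ℤ) : ℝ) ≤ (x : ℝ)
      push_cast
      linarith
    · change ((x + -1 : ℤ) : ℝ) ≤ (1 - u) * (x : ℝ) + u * ((x + -1 : ℤ) : ℝ)
      push_cast
      linarith
  · exact ⟨⟨(x, y, z), Or.inl rfl, f2 y, f1 z, (g1 x).le⟩,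
      ⟨(x, y, z), Or.inl rfl, f2 y, f1 z, (g1 x).ge⟩⟩
  · by_cases hu : u = 0
    · exact ⟨⟨(x, y, z), Or.inl rfl, f4 hu y, f1 z, (g1 x).le⟩,
        ⟨(x, y, z), Or.inl rfl, f4 hu y, f1 z, (g1 x).ge⟩⟩
    · have e : ((x + 0 : ℤ) : ℝ) = x := by push_cast; ring
      refine ⟨⟨(x, y, z) + vec .ym, Or.inr rfl, f3 hu y, g0 z, ?_⟩,
        ⟨(x, y, z) + vec .ym, Or.inr rfl, f3 hu y, g0 z, ?_⟩⟩
      · exact ((g1 x).trans e.symm).le
      · exact ((g1 x).trans e.symm).ge
  · exact ⟨⟨(x, y, z), Or.inl rfl, f1 y, f2 z, (g1 x).le⟩,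
      ⟨(x, y, z), Or.inl rfl, f1 y, f2 z, (g1 x).ge⟩⟩
  · by_cases hu : u = 0
    · exact ⟨⟨(x, y, z), Or.inl rfl, f1 y, f4 hu z, (g1 x).le⟩,
        ⟨(x, y, z), Or.inl rfl, f1 y, f4 hu z, (g1 x).ge⟩⟩
    · have e : ((x + 0 : ℤ) : ℝ) = x := by push_cast; ring
      refine ⟨⟨(x, y, z) + vec .zm, Or.inr rfl, g0 y, f3 hu z, ?_⟩,
        ⟨(x, y, z) + vec .zm, Or.inr rfl, g0 y, f3 hu z, ?_⟩⟩
      · exact ((g1 x).trans e.symm).le
      · exact ((g1 x).trans e.symm).ge

/-- point of the left polygon -/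
def KP (l1 : List Dir) (X : V) (φ : ℝ) : Prop := φ = 0 ∧ ∃ a ∈ path (l1 ++ [.zp]),
  a.2.1 = ⌊X.2.1⌋ ∧ a.2.2 = ⌊X.2.2⌋ ∧ X.1 ≤ a.1

/-- point of the right polygon -/
def KQ (v : List Dir) (S : ℝ) (X : V) (φ : ℝ) : Prop := φ = S ∧ ∃ b ∈ path v,
  b.2.1 = ⌊X.2.1⌋ ∧ b.2.2 = ⌊X.2.2⌋ ∧ (b.1 : ℝ) + 1 ≤ X.1

/-- point of a strand -/
def KS (S : ℝ) (X : V) (φ : ℝ) : Prop := φ = S * X.1 ∧ 0 ≤ X.1 ∧ X.1 ≤ 1 ∧ X.2.1 = 0 ∧
  (X.2.2 = 0 ∨ X.2.2 = 1)

/-- all points of an edge -/
def Phi (l1 v : List Dir) (S : ℝ) (e e' : V × ℝ) : Prop := ∀ u : ℝ, 0 ≤ u → u < 1 →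
  KP l1 (lerp e.1 e'.1 u) ((1 - u) * e.2 + u * e'.2) ∨
  KQ v S (lerp e.1 e'.1 u) ((1 - u) * e.2 + u * e'.2) ∨
  KS S (lerp e.1 e'.1 u) ((1 - u) * e.2 + u * e'.2)

theorem phi_P (l1 v : List Dir) (S : ℝ) (a b : Z3) (h : ∃ d, b = a + vec d)
    (ha : a ∈ path (l1 ++ [.zp])) (hb : b ∈ path (l1 ++ [.zp])) :
    Phi l1 v S (emb a, 0) (emb b, 0) := by
  obtain ⟨d, rfl⟩ := h
  intro u h0 h1
  left
  refine ⟨by simp, ?_⟩
  obtain ⟨⟨c, hc, c1, c2, c3⟩, -⟩ := edge_lem a d u h0 h1
  refine ⟨c, ?_, c1, c2, c3⟩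
  rcases hc with rfl | rfl
  · exact ha
  · exact hb

theorem phi_Q (l1 v : List Dir) (S : ℝ) (a b : Z3) (h : ∃ d, b = a + vec d)
    (ha : a ∈ path v) (hb : b ∈ path v) :
    Phi l1 v S (emb (a + (1, 0, 0)), S) (emb (b + (1, 0, 0)), S) := by
  obtain ⟨d, rfl⟩ := h
  intro u h0 h1
  right
  left
  refine ⟨by simp only; ring, ?_⟩
  obtain ⟨-, ⟨c, hc, c1, c2, c3⟩⟩ := edge_lem (a + (1, 0, 0)) d u h0 h1
  have e : a + vec d + (1, 0, 0) = a + (1, 0, 0) + vec d := by abel
  simp only
  rw [e]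
  refine ⟨c - (1, 0, 0), ?_, ?_, ?_, ?_⟩
  · rcases hc with rfl | rfl
    · rw [add_sub_cancel_right]
      exact ha
    · have : a + (1, 0, 0) + vec d - (1, 0, 0) = a + vec d := by abel
      rw [this]
      exact hb
  · rw [← c1]
    simp
  · rw [← c2]
    simp
  · refine le_trans (le_of_eq ?_) c3
    have : (c - (1, 0, 0)).1 = c.1 - 1 := rfl
    rw [this]
    push_cast
    ring

theorem phi_S1 (l1 v : List Dir) (S : ℝ) :
    Phi l1 v S (emb (0, 0, 1), 0) (emb (1, 0, 1), S) := by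
  intro u h0 h1
  right
  right
  simp only
  rw [lerp_coord]
  refine ⟨?_, ?_, ?_, ?_, ?_⟩
  · simp; ring
  · simp; exact h0
  · simp; exact h1.le
  · simp
  · right; simp

theorem phi_S0 (l1 v : List Dir) (S : ℝ) :
    Phi l1 v S (emb (1, 0, 0), S) (emb 0, 0) := by
  intro u h0 h1
  right
  right
  simp only
  rw [lerp_coord]
  refine ⟨?_, ?_, ?_, ?_, ?_⟩
  · simp; ring
  · simp; exact h1.le
  · simp; exact h0
  · simp
  · left; simp

/-- the path of `l ++ [d]` -/
theorem path_snoc (l : List Dir) (d : Dir) :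
    path (l ++ [d]) = (path l).map (fun p => p + vec d) ++ [0] := by
  induction l with
  | nil => simp [path, pos]
  | cons e l ih =>
    rw [List.cons_append, path, ih, path, pos_append]
    simp [pos, add_right_comm]

theorem path_join (l v : List Dir) (hv : pos v = (0, 0, 1)) :
    path (l ++ .xm :: (v ++ [.xp])) = (path l).map (fun p => p + (0, 0, 1)) ++
      ((path v).map (fun p => p + (1, 0, 0)) ++ [0]) := by
  have hb : pos (.xm :: (v ++ [.xp])) = (0, 0, 1) := by
    rw [pos, pos_append, hv]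
    decide
  induction l with
  | nil =>
    rw [List.nil_append]
    have e1 : path (Dir.xm :: (v ++ [.xp])) =
        pos (Dir.xm :: (v ++ [.xp])) :: path (v ++ [.xp]) := rfl
    rw [e1, hb, path_snoc]
    simp [path, vec]
  | cons e l ih =>
    rw [List.cons_append, path, ih, path, pos_append, hb]
    simp [add_right_comm]

theorem real_main : P_real := by
  intro l1 v hXS S hS
  have hlen := hXS.left.1
  obtain ⟨d, l, rfl⟩ : ∃ d l, l1 = d :: l := by
    cases l1 with
    | nil => simp at hlen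
    | cons d l => exact ⟨d, l, rfl⟩
  have hpl : pos (d :: l) = (0, 0, -1) := by
    have := hXS.left.2.1
    rw [pos_append] at this
    have e : pos [Dir.zp] = (0, 0, 1) := by decide
    rw [e] at this
    have := eq_neg_of_add_eq_zero_left this
    rw [this]
    rfl
  have hpv : pos v = (0, 0, 1) := by
    have := hXS.right.2.1
    rw [pos] at this
    have := eq_neg_of_add_eq_zero_left this
    rw [this]
    rfl
  refine ⟨?_, ?_⟩
  · unfold jl vl join
    rw [List.cons_append, List.tail_cons, List.tail_cons, path_join l v hpv]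
    simp only [List.map_append, List.map_map]
    congr 1
    congr 1
    simp [← emb0]
  · -- the vertices
    have hP0 : path (d :: l ++ [.zp]) = (path (d :: l)).map (fun p => p + (0, 0, 1)) ++ [0] :=
      path_snoc (d :: l) .zp
    have hPl : ∀ p ∈ path l, p + (0, 0, 1) ∈ path (d :: l ++ [.zp]) := by
      intro p hp
      rw [hP0]
      apply List.mem_append_left
      apply List.mem_map_of_mem (f := fun p : Z3 => p + (0, 0, 1))
      rw [path]
      exact List.mem_cons_of_mem _ hp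
    have h0P : (0 : Z3) ∈ path (d :: l ++ [.zp]) := zero_mem_path _
    have h1P : ((0, 0, 1) : Z3) ∈ path (d :: l ++ [.zp]) := by
      have := hPl 0 (zero_mem_path l)
      rwa [zero_add] at this
    have h0Q : (0 : Z3) ∈ path v := zero_mem_path v
    have h1Q : ((0, 0, 1) : Z3) ∈ path v := by
      rw [← hpv]
      exact pos_mem_path v
    -- the chain
    set x : V × ℝ := (emb (pos l + (0, 0, 1)), 0) with hx
    have hjl : jl (d :: l) v S = (path l).map (fun p => (emb (p + (0, 0, 1)), (0 : ℝ))) ++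
        ((path v).map (fun p => (emb (p + (1, 0, 0)), S)) ++ [((0 : V), (0 : ℝ))]) := rfl
    have hox : Phi (d :: l) v S ((0 : V), (0 : ℝ)) x := by
      have e0 : (0 : V) = emb 0 := emb0
      rw [e0, hx]
      refine phi_P _ _ _ 0 (pos l + (0, 0, 1)) ⟨neg d, ?_⟩ h0P (hPl _ (pos_mem_path l))
      rw [pos] at hpl
      have e1 : pos l = (0, 0, -1) - vec d := eq_sub_of_add_eq hpl
      rw [e1, vec_neg]
      have e2 : ((0, 0, -1) : Z3) = - (0, 0, 1) := rfl
      rw [e2]
      abel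
    have hch : (jl (d :: l) v S ++ [x]).IsChain (Phi (d :: l) v S) := by
      rw [hjl, List.append_assoc, List.isChain_append]
      refine ⟨?_, ?_, ?_⟩
      · rw [List.isChain_map]
        refine (path_chain (fun p => p + (0, 0, 1) ∈ path (d :: l ++ [.zp])) l hPl).imp ?_
        rintro a b ⟨⟨f, rfl⟩, ha, hb⟩
        refine phi_P _ _ _ _ _ ⟨f, ?_⟩ ha hb
        abel
      · rw [List.append_assoc, List.isChain_append]
        refine ⟨?_, ?_, ?_⟩
        · rw [List.isChain_map]
          refine (path_chain (fun p => p ∈ path v) v (fun p hp => hp)).imp ?_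
          rintro a b ⟨hab, ha, hb⟩
          exact phi_Q _ _ _ _ _ hab ha hb
        · simpa using hox
        · intro a ha b hb
          rw [List.getLast?_map, path_getLast?] at ha
          simp only [Option.map_some, Option.mem_def, Option.some.injEq] at ha
          simp only [List.singleton_append, List.head?_cons, Option.mem_def,
            Option.some.injEq] at hb
          subst ha
          subst hb
          have h5 := phi_S0 (d :: l) v S
          have e0 : (0 : V) = emb 0 := emb0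
          rw [e0, zero_add]
          exact h5
      · intro a ha b hb
        rw [List.getLast?_map, path_getLast?] at ha
        simp only [Option.map_some, Option.mem_def, Option.some.injEq] at ha
        rw [List.append_assoc, List.head?_append, List.head?_map, path_head?] at hb
        simp only [Option.map_some, Option.mem_def, Option.some_or, Option.some.injEq] at hb
        subst ha
        subst hb
        have h5 := phi_S1 (d :: l) v S
        rw [hpv, zero_add]
        exact h5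
    have hhead : (jl (d :: l) v S).head? = some x := by
      rw [hjl, List.head?_append, List.head?_map, path_head?]
      rfl
    obtain ⟨t, ht⟩ := List.head?_eq_some_iff.mp hhead
    have hcyc : ∀ e ∈ cyc (jl (d :: l) v S), Phi (d :: l) v S e.1 e.2 := by
      rw [ht] at hch ⊢
      intro e he
      apply zip_chain _ t x x hch e
      simpa [cyc] using he
    -- separation
    have hsep : ∀ a ∈ path (d :: l ++ [.zp]), ∀ b ∈ path v, a.2.1 = b.2.1 → a.2.2 = b.2.2 →
        (a.1 : ℝ) + 1 ≤ (b.1 : ℝ) + 1 := by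
      intro a ha b hb h1 h2
      have h3 := hXS.sep a ha b hb (Prod.ext h1 h2)
      have h4 : a.1 + 1 ≤ b.1 + 1 := by omega
      exact_mod_cast h4
    intro e he e' he' u u' hu0 hu1 hu0' hu1' heq hlt
    have k := hcyc e he u hu0 hu1
    have k' := hcyc e' he' u' hu0' hu1'
    set X := lerp e.1.1 e.2.1 u with hX
    set X' := lerp e'.1.1 e'.2.1 u' with hX'
    have heq1 : X.2.1 = X'.2.1 := congrArg Prod.fst heq
    have heq2 : X.2.2 = X'.2.2 := congrArg Prod.snd heq
    rcases k with ⟨kφ, a, ha, a1, a2, a3⟩ | ⟨kφ, b, hb, b1, b2, b3⟩ | ⟨kφ, s1, s2, s3, s4⟩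
    · rw [kφ]
      rcases k' with ⟨kφ', -⟩ | ⟨kφ', -⟩ | ⟨kφ', t1, t2, t3, t4⟩
      · rw [kφ']
      · rw [kφ']
        exact hS
      · rw [kφ']
        exact mul_nonneg hS t1
    · rw [kφ]
      rcases k' with ⟨kφ', a, ha, a1, a2, a3⟩ | ⟨kφ', -⟩ | ⟨kφ', t1, t2, t3, t4⟩
      · exfalso
        have h5 := hsep a ha b hb (by rw [a1, b1, heq1]) (by rw [a2, b2, heq2])
        have h6 : a.1 < 1 + b.1 := hXS.sep a ha b hb
          (Prod.ext (by rw [a1, b1, heq1]) (by rw [a2, b2, heq2]))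
        linarith
      · rw [kφ']
      · exfalso
        -- `b` is on the line of the strand
        have hb1 : b.2.1 = 0 := by rw [b1, heq1, t3]; simp
        have h6 : 0 ≤ b.1 := by
          rcases t4 with t4 | t4
          · have hb2 : b.2.2 = 0 := by rw [b2, heq2, t4]; simp
            have := hXS.sep 0 h0P b hb (Prod.ext hb1.symm hb2.symm)
            have e0 : (0 : Z3).1 = 0 := rfl
            omega
          · have hb2 : b.2.2 = 1 := by rw [b2, heq2, t4]; simp
            have := hXS.sep (0, 0, 1) h1P b hb (Prod.ext hb1.symm hb2.symm)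
            simp only at this
            omega
        have h7 : (0 : ℝ) ≤ b.1 := by exact_mod_cast h6
        linarith
    · rw [kφ]
      rcases k' with ⟨kφ', a, ha, a1, a2, a3⟩ | ⟨kφ', -⟩ | ⟨kφ', t1, t2, t3, t4⟩
      · exfalso
        have ha1 : a.2.1 = 0 := by rw [a1, ← heq1, s3]; simp
        have h6 : a.1 ≤ 0 := by
          rcases s4 with s4 | s4
          · have ha2 : a.2.2 = 0 := by rw [a2, ← heq2, s4]; simp
            have := hXS.sep a ha 0 h0Q (Prod.ext ha1 ha2)
            have e0 : (0 : Z3).1 = 0 := rfl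
            omega
          · have ha2 : a.2.2 = 1 := by rw [a2, ← heq2, s4]; simp
            have := hXS.sep a ha (0, 0, 1) h1Q (Prod.ext ha1 ha2)
            simp only at this
            omega
        have h7 : (a.1 : ℝ) ≤ 0 := by exact_mod_cast h6
        linarith
      · rw [kφ']
        calc S * X.1 ≤ S * 1 := mul_le_mul_of_nonneg_left s2 hS
          _ = S := mul_one S
      · rw [kφ']
        exact mul_le_mul_of_nonneg_left hlt.le hS

end

end RealW177

end UB

end KN
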